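import Mathlib
import Pool.Agent.Lib.MP_84e76d_ag.Low
import Pool.Agent.Lib.MP_84e76d_ag.Exist

namespace Pool.Agent.Results.MP_84e76d_ag.ModFour

open MvPolynomial Pool.Agent.Lib.MP_84e76d_ag

/-- The module `D(A, m)` of logarithmic derivations of `S = K[x, y]` for linear forms `α i`
with multiplicities `m i`: all derivations `θ` of `S` over `K` with `θ (α i) ∈ (α i) ^ (m i) S`
for every `i`. -/
def logDer {K : Type*} [Field K] {ι : Type*} (α : ι → MvPolynomial (Fin 2) K) (m : ι → ℕ) :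
    Submodule (MvPolynomial (Fin 2) K)
      (Derivation K (MvPolynomial (Fin 2) K) (MvPolynomial (Fin 2) K)) where
  carrier := {θ | ∀ i, α i ^ m i ∣ θ (α i)}
  add_mem' {a b} ha hb i := by
    rw [Derivation.add_apply]
    exact dvd_add (ha i) (hb i)
  zero_mem' i := by
    rw [Derivation.zero_apply]
    exact dvd_zero _
  smul_mem' c {a} ha i := by
    rw [Derivation.smul_apply, smul_eq_mul]
    exact (ha i).mul_left c

/-- The defining linear forms `x, y, x - y, x + y` of the `B₂` arrangement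
(`x = X 0`, `y = X 1`). -/
noncomputable def b2 (K : Type*) [Field K] : Fin 4 → MvPolynomial (Fin 2) K :=
  ![X 0, X 1, X 0 - X 1, X 0 + X 1]

/-- `(d₁, d₂)` are exponents of `(α, m)`: the module `D(A, m)` has an `S`-basis `θ₁, θ₂` that is
homogeneous of polynomial degrees `d₁, d₂`. -/
def IsExponents {K : Type*} [Field K] {ι : Type*} (α : ι → MvPolynomial (Fin 2) K) (m : ι → ℕ)
    (d₁ d₂ : ℕ) : Prop :=
  ∃ b : Module.Basis (Fin 2) (MvPolynomial (Fin 2) K) (logDer α m),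
    (∀ j, ((b 0 : Derivation K (MvPolynomial (Fin 2) K) (MvPolynomial (Fin 2) K))
      (X j)).IsHomogeneous d₁) ∧
    (∀ j, ((b 1 : Derivation K (MvPolynomial (Fin 2) K) (MvPolynomial (Fin 2) K))
      (X j)).IsHomogeneous d₂)

section

variable {K : Type*} [Field K]

lemma mem_iff (m : Fin 4 → ℕ)
    (θ : Derivation K (MvPolynomial (Fin 2) K) (MvPolynomial (Fin 2) K)) :
    θ ∈ logDer (b2 K) m ↔ InD (m 0) (m 1) (m 2) (m 3) (θ (X 0)) (θ (X 1)) := by
  constructor
  · intro h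
    refine ⟨h 0, h 1, ?_, ?_⟩
    · have := h 2
      simpa [b2] using this
    · have := h 3
      simpa [b2] using this
  · rintro ⟨h0, h1, h2, h3⟩ i
    fin_cases i
    · exact h0
    · exact h1
    · simpa [b2] using h2
    · simpa [b2] using h3

/-- Nonzero linear forms are irreducible. -/
lemma irr (p : MvPolynomial (Fin 2) K) (hp : p.IsHomogeneous 1) (hne : p ≠ 0) :
    Irreducible p := by
  apply MvPolynomial.irreducible_of_totalDegree_eq_one
  · exact hp.totalDegree hne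
  · intro x hx
    by_contra hcon
    have hx0 : x = 0 := by
      by_contra h0
      exact hcon (IsUnit.mk0 x h0)
    apply hne
    ext i
    have := hx i
    rw [hx0, zero_dvd_iff] at this
    rw [this, coeff_zero]

/-- Coefficients of two elements of `D(A, m)`: the determinant is divisible by `Q`. -/
lemma det_dvd [CharZero K] (m1 m2 m3 m4 : ℕ) (f g f' g' : MvPolynomial (Fin 2) K)
    (h : InD m1 m2 m3 m4 f g) (h' : InD m1 m2 m3 m4 f' g') :
    Qpoly K m1 m2 m3 m4 ∣ f * g' - g * f' := by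
  obtain ⟨h1, h2, h3, h4⟩ := h
  obtain ⟨h1', h2', h3', h4'⟩ := h'
  have d1 : (X 0 : MvPolynomial (Fin 2) K) ^ m1 ∣ f * g' - g * f' :=
    dvd_sub (h1.mul_right _) (h1'.mul_left _)
  have d2 : (X 1 : MvPolynomial (Fin 2) K) ^ m2 ∣ f * g' - g * f' :=
    dvd_sub (h2'.mul_left _) (h2.mul_right _)
  have d3 : (X 0 - X 1 : MvPolynomial (Fin 2) K) ^ m3 ∣ f * g' - g * f' := by
    rw [show f * g' - g * f' = (f - g) * g' - g * (f' - g') by ring]
    exact dvd_sub (h3.mul_right _) (h3'.mul_left _)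
  have d4 : (X 0 + X 1 : MvPolynomial (Fin 2) K) ^ m4 ∣ f * g' - g * f' := by
    rw [show f * g' - g * f' = (f + g) * g' - g * (f' + g') by ring]
    exact dvd_sub (h4.mul_right _) (h4'.mul_left _)
  have i0 : Irreducible (X 0 : MvPolynomial (Fin 2) K) :=
    irr _ (isHomogeneous_X _ _) (X_ne_zero 0)
  have i1 : Irreducible (X 1 : MvPolynomial (Fin 2) K) :=
    irr _ (isHomogeneous_X _ _) (X_ne_zero 1)
  have i2 : Irreducible (X 0 - X 1 : MvPolynomial (Fin 2) K) := by
    apply irr _ ((isHomogeneous_X _ _).sub (isHomogeneous_X _ _))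
    intro h0
    have := congrArg (eval ![(1 : K), 0]) h0
    simp at this
  have ev : ∀ (p q : MvPolynomial (Fin 2) K) (v : Fin 2 → K), Irreducible p →
      eval v p = 0 → eval v q ≠ 0 → IsRelPrime p q := by
    intro p q v hp h0 h1
    rw [hp.isRelPrime_iff_not_dvd]
    rintro ⟨r, hr⟩
    apply h1
    rw [hr, map_mul, h0, zero_mul]
  have r01 : IsRelPrime (X 0 : MvPolynomial (Fin 2) K) (X 1) :=
    ev _ _ ![0, 1] i0 (by simp) (by simp)
  have r02 : IsRelPrime (X 0 : MvPolynomial (Fin 2) K) (X 0 - X 1) :=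
    ev _ _ ![0, 1] i0 (by simp) (by simp)
  have r03 : IsRelPrime (X 0 : MvPolynomial (Fin 2) K) (X 0 + X 1) :=
    ev _ _ ![0, 1] i0 (by simp) (by simp)
  have r12 : IsRelPrime (X 1 : MvPolynomial (Fin 2) K) (X 0 - X 1) :=
    ev _ _ ![1, 0] i1 (by simp) (by simp)
  have r13 : IsRelPrime (X 1 : MvPolynomial (Fin 2) K) (X 0 + X 1) :=
    ev _ _ ![1, 0] i1 (by simp) (by simp)
  have r23 : IsRelPrime (X 0 - X 1 : MvPolynomial (Fin 2) K) (X 0 + X 1) :=
    ev _ _ ![1, 1] i2 (by simp) (by simp)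
  rw [Qpoly]
  apply IsRelPrime.mul_dvd
  · exact IsRelPrime.mul_left (IsRelPrime.mul_left (r03.pow) (r13.pow)) (r23.pow)
  · apply IsRelPrime.mul_dvd
    · exact IsRelPrime.mul_left (r02.pow) (r12.pow)
    · exact IsRelPrime.mul_dvd (r01.pow) d1 d2
    · exact d3
  · exact d4

lemma Qpoly_ne_zero [CharZero K] (m1 m2 m3 m4 : ℕ) : Qpoly K m1 m2 m3 m4 ≠ 0 := by
  intro h
  have := congrArg (eval ![(2 : K), 1]) h
  simp [Qpoly] at this
  norm_num at this

lemma Qpoly_isHomogeneous (m1 m2 m3 m4 : ℕ) :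
    (Qpoly K m1 m2 m3 m4).IsHomogeneous (m1 + m2 + m3 + m4) := by
  have h2 : ((X 0 - X 1 : MvPolynomial (Fin 2) K) ^ m3).IsHomogeneous m3 := by
    simpa using ((isHomogeneous_X K (0 : Fin 2)).sub (isHomogeneous_X K (1 : Fin 2))).pow m3
  have h3 : ((X 0 + X 1 : MvPolynomial (Fin 2) K) ^ m4).IsHomogeneous m4 := by
    simpa using ((isHomogeneous_X K (0 : Fin 2)).add (isHomogeneous_X K (1 : Fin 2))).pow m4
  exact (((isHomogeneous_X_pow _ _).mul (isHomogeneous_X_pow _ _)).mul h2).mul h3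

/-- Saito's criterion. -/
lemma exists_basis [CharZero K] (m : Fin 4 → ℕ) : ∃ d₁ d₂, IsExponents (b2 K) m d₁ d₂ := by
  classical
  obtain ⟨f1, g1, f2, g2, d1, d2, κ, hκ, hf1, hg1, hf2, hg2, i1, i2, hdet⟩ :=
    saito_exists K (m 0) (m 1) (m 2) (m 3)
  set θ1 : Derivation K (MvPolynomial (Fin 2) K) (MvPolynomial (Fin 2) K) :=
    mkDerivation K ![f1, g1] with hθ1
  set θ2 : Derivation K (MvPolynomial (Fin 2) K) (MvPolynomial (Fin 2) K) :=
    mkDerivation K ![f2, g2] with hθ2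
  have e10 : θ1 (X 0) = f1 := by simp [hθ1, mkDerivation_X]
  have e11 : θ1 (X 1) = g1 := by simp [hθ1, mkDerivation_X]
  have e20 : θ2 (X 0) = f2 := by simp [hθ2, mkDerivation_X]
  have e21 : θ2 (X 1) = g2 := by simp [hθ2, mkDerivation_X]
  have m1 : θ1 ∈ logDer (b2 K) m := by rw [mem_iff, e10, e11]; exact i1
  have m2 : θ2 ∈ logDer (b2 K) m := by rw [mem_iff, e20, e21]; exact i2
  have hQ := Qpoly_ne_zero (K := K) (m 0) (m 1) (m 2) (m 3)
  have hCκ : (C κ : MvPolynomial (Fin 2) K) ≠ 0 := by simpa using hκ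
  have hdet0 : f1 * g2 - g1 * f2 ≠ 0 := by
    rw [hdet]
    exact mul_ne_zero hCκ hQ
  let v : Fin 2 → logDer (b2 K) m := ![⟨θ1, m1⟩, ⟨θ2, m2⟩]
  let L : (Fin 2 → MvPolynomial (Fin 2) K) →ₗ[MvPolynomial (Fin 2) K] logDer (b2 K) m :=
    Fintype.linearCombination (MvPolynomial (Fin 2) K) v
  have hL : ∀ c, L c = c 0 • v 0 + c 1 • v 1 := by
    intro c
    simp [L, Fintype.linearCombination_apply]
  have hL0 : ∀ c, ((L c : logDer (b2 K) m) : Derivation K (MvPolynomial (Fin 2) K)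
      (MvPolynomial (Fin 2) K)) (X 0) = c 0 * f1 + c 1 * f2 := by
    intro c
    rw [hL]
    simp [v, e10, e20]
  have hL1 : ∀ c, ((L c : logDer (b2 K) m) : Derivation K (MvPolynomial (Fin 2) K)
      (MvPolynomial (Fin 2) K)) (X 1) = c 0 * g1 + c 1 * g2 := by
    intro c
    rw [hL]
    simp [v, e11, e21]
  have hinj : Function.Injective L := by
    rw [injective_iff_map_eq_zero]
    intro c hc
    have h0' : c 0 * f1 + c 1 * f2 = 0 := by rw [← hL0, hc]; simp
    have h1' : c 0 * g1 + c 1 * g2 = 0 := by rw [← hL1, hc]; simp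
    have c0 : c 0 = 0 := by
      have : c 0 * (f1 * g2 - g1 * f2) = 0 := by
        calc c 0 * (f1 * g2 - g1 * f2)
            = (c 0 * f1 + c 1 * f2) * g2 - (c 0 * g1 + c 1 * g2) * f2 := by ring
          _ = 0 := by rw [h0', h1']; ring
      exact (mul_eq_zero.mp this).resolve_right hdet0
    have c1 : c 1 = 0 := by
      have : c 1 * (f1 * g2 - g1 * f2) = 0 := by
        calc c 1 * (f1 * g2 - g1 * f2)
            = (c 0 * g1 + c 1 * g2) * f1 - (c 0 * f1 + c 1 * f2) * g1 := by ring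
          _ = 0 := by rw [h0', h1']; ring
      exact (mul_eq_zero.mp this).resolve_right hdet0
    funext i
    fin_cases i
    · exact c0
    · exact c1
  have hsurj : Function.Surjective L := by
    rintro ⟨η, hη⟩
    have iη := (mem_iff m η).mp hη
    obtain ⟨a, ha⟩ := det_dvd _ _ _ _ _ _ _ _ iη i2
    obtain ⟨b, hb⟩ := det_dvd _ _ _ _ _ _ _ _ i1 iη
    have hCC : (C κ : MvPolynomial (Fin 2) K) * C κ⁻¹ = 1 := by
      rw [← C_mul, mul_inv_cancel₀ hκ, C_1]
    refine ⟨![C κ⁻¹ * a, C κ⁻¹ * b], ?_⟩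
    apply Subtype.ext
    apply MvPolynomial.derivation_ext
    intro j
    fin_cases j
    · rw [Fin.zero_eta, hL0]
      simp only [Matrix.cons_val_zero, Matrix.cons_val_one]
      apply mul_left_cancel₀ hdet0
      symm
      calc (f1 * g2 - g1 * f2) * η (X 0)
          = (η (X 0) * g2 - η (X 1) * f2) * f1 + (f1 * η (X 1) - g1 * η (X 0)) * f2 := by ring
        _ = Qpoly K (m 0) (m 1) (m 2) (m 3) * (a * f1 + b * f2) := by rw [ha, hb]; ring
        _ = (C κ * C κ⁻¹) * (Qpoly K (m 0) (m 1) (m 2) (m 3) * (a * f1 + b * f2)) := by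
            rw [hCC, one_mul]
        _ = _ := by rw [hdet]; ring
    · rw [Fin.mk_one, hL1]
      simp only [Matrix.cons_val_zero, Matrix.cons_val_one]
      apply mul_left_cancel₀ hdet0
      symm
      calc (f1 * g2 - g1 * f2) * η (X 1)
          = (η (X 0) * g2 - η (X 1) * f2) * g1 + (f1 * η (X 1) - g1 * η (X 0)) * g2 := by ring
        _ = Qpoly K (m 0) (m 1) (m 2) (m 3) * (a * g1 + b * g2) := by rw [ha, hb]; ring
        _ = (C κ * C κ⁻¹) * (Qpoly K (m 0) (m 1) (m 2) (m 3) * (a * g1 + b * g2)) := by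
            rw [hCC, one_mul]
        _ = _ := by rw [hdet]; ring
  let e : (Fin 2 → MvPolynomial (Fin 2) K) ≃ₗ[MvPolynomial (Fin 2) K] logDer (b2 K) m :=
    LinearEquiv.ofBijective L ⟨hinj, hsurj⟩
  refine ⟨d1, d2, Module.Basis.ofEquivFun e.symm, ?_, ?_⟩
  · intro j
    have hb : (Module.Basis.ofEquivFun e.symm) 0 = v 0 := by
      rw [Module.Basis.coe_ofEquivFun]
      change L _ = _
      rw [hL]
      simp
    rw [hb]
    fin_cases j
    · simpa [v, e10] using hf1
    · simpa [v, e11] using hg1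
  · intro j
    have hb : (Module.Basis.ofEquivFun e.symm) 1 = v 1 := by
      rw [Module.Basis.coe_ofEquivFun]
      change L _ = _
      rw [hL]
      simp
    rw [hb]
    fin_cases j
    · simpa [v, e20] using hf2
    · simpa [v, e21] using hg2

/-- The exponents sum to `|m|`. -/
lemma sum_exponents [CharZero K] (m : Fin 4 → ℕ) (d₁ d₂ : ℕ) (h : IsExponents (b2 K) m d₁ d₂) :
    d₁ + d₂ = m 0 + m 1 + m 2 + m 3 := by
  classical
  obtain ⟨b, h1, h2⟩ := h
  obtain ⟨f1, g1, f2, g2, e1, e2, κ, hκ, hf1, hg1, hf2, hg2, i1, i2, hdet⟩ :=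
    saito_exists K (m 0) (m 1) (m 2) (m 3)
  have hQ := Qpoly_ne_zero (K := K) (m 0) (m 1) (m 2) (m 3)
  have hCκ : (C κ : MvPolynomial (Fin 2) K) ≠ 0 := by simpa using hκ
  set θ : Derivation K (MvPolynomial (Fin 2) K) (MvPolynomial (Fin 2) K) := (b 0).1 with hθ
  set η : Derivation K (MvPolynomial (Fin 2) K) (MvPolynomial (Fin 2) K) := (b 1).1 with hη
  -- every element of `InD` is a combination of `θ` and `η`
  have hcomb : ∀ f g : MvPolynomial (Fin 2) K, InD (m 0) (m 1) (m 2) (m 3) f g →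
      ∃ a c, f = a * θ (X 0) + c * η (X 0) ∧ g = a * θ (X 1) + c * η (X 1) := by
    intro f g hfg
    have e0 : (mkDerivation K ![f, g] :
        Derivation K (MvPolynomial (Fin 2) K) (MvPolynomial (Fin 2) K)) (X 0) = f := by
      simp [mkDerivation_X]
    have e1 : (mkDerivation K ![f, g] :
        Derivation K (MvPolynomial (Fin 2) K) (MvPolynomial (Fin 2) K)) (X 1) = g := by
      simp [mkDerivation_X]
    have hmem : (mkDerivation K ![f, g] :
        Derivation K (MvPolynomial (Fin 2) K) (MvPolynomial (Fin 2) K)) ∈ logDer (b2 K) m := by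
      rw [mem_iff, e0, e1]; exact hfg
    have hsum := b.sum_repr ⟨_, hmem⟩
    rw [Fin.sum_univ_two] at hsum
    have hval := congrArg Subtype.val hsum
    refine ⟨b.repr ⟨_, hmem⟩ 0, b.repr ⟨_, hmem⟩ 1, ?_, ?_⟩
    · have := congrArg (fun D : Derivation K (MvPolynomial (Fin 2) K) (MvPolynomial (Fin 2) K) =>
        D (X 0)) hval
      simp only [e0] at this
      refine this.symm.trans ?_
      simp [hθ, hη]
    · have := congrArg (fun D : Derivation K (MvPolynomial (Fin 2) K) (MvPolynomial (Fin 2) K) =>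
        D (X 1)) hval
      simp only [e1] at this
      refine this.symm.trans ?_
      simp [hθ, hη]
  obtain ⟨a, c, hf1', hg1'⟩ := hcomb f1 g1 i1
  obtain ⟨a', c', hf2', hg2'⟩ := hcomb f2 g2 i2
  obtain ⟨r, hr⟩ := det_dvd (K := K) _ _ _ _ _ _ _ _ ((mem_iff m θ).mp (b 0).2)
    ((mem_iff m η).mp (b 1).2)
  have hunit : (a * c' - c * a') * r = C κ := by
    apply mul_left_cancel₀ hQ
    calc Qpoly K (m 0) (m 1) (m 2) (m 3) * ((a * c' - c * a') * r)
        = (a * c' - c * a') * (Qpoly K (m 0) (m 1) (m 2) (m 3) * r) := by ring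
      _ = (a * c' - c * a') * (θ (X 0) * η (X 1) - θ (X 1) * η (X 0)) := by rw [← hr]
      _ = f1 * g2 - g1 * f2 := by rw [hf1', hg1', hf2', hg2']; ring
      _ = _ := by rw [hdet]; ring
  have hr0 : r ≠ 0 := by
    rintro rfl
    rw [mul_zero] at hunit
    exact hCκ hunit.symm
  have hs0 : a * c' - c * a' ≠ 0 := by
    intro h0
    rw [h0, zero_mul] at hunit
    exact hCκ hunit.symm
  have htd : r.totalDegree = 0 := by
    have := congrArg MvPolynomial.totalDegree hunit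
    rw [totalDegree_mul_of_isDomain hs0 hr0, totalDegree_C] at this
    omega
  have hdetne : θ (X 0) * η (X 1) - θ (X 1) * η (X 0) ≠ 0 := by
    rw [hr]
    exact mul_ne_zero hQ hr0
  have hdeth : (θ (X 0) * η (X 1) - θ (X 1) * η (X 0)).IsHomogeneous (d₁ + d₂) :=
    ((h1 0).mul (h2 1)).sub ((h1 1).mul (h2 0))
  have htd2 := hdeth.totalDegree hdetne
  rw [hr, totalDegree_mul_of_isDomain hQ hr0, htd, add_zero,
    (Qpoly_isHomogeneous _ _ _ _).totalDegree hQ] at htd2
  omega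

end

/-- Let `K` be a field of characteristic zero and let `m = (m₁, m₂, m₃, m₄)` be a balanced
multiplicity on the `B₂` arrangement `x^{m₁} y^{m₂} (x-y)^{m₃} (x+y)^{m₄}` with
`m₁ + m₂ ≢ m₃ + m₄ (mod 4)`. Then the exponents exist, sum to `|m|`, and differ by at most `1`. -/
theorem result (K : Type*) [Field K] [CharZero K] (m : Fin 4 → ℕ) (hpos : ∀ i, 0 < m i)
    (hbal : ∀ i, 2 * m i ≤ m 0 + m 1 + m 2 + m 3)
    (hmod : ¬ m 0 + m 1 ≡ m 2 + m 3 [MOD 4]) :
    (∃ d₁ d₂, IsExponents (b2 K) m d₁ d₂) ∧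
      ∀ d₁ d₂, IsExponents (b2 K) m d₁ d₂ →
        d₁ + d₂ = m 0 + m 1 + m 2 + m 3 ∧ |(d₁ : ℤ) - d₂| ≤ 1 := by
  refine ⟨exists_basis m, ?_⟩
  intro d₁ d₂ h
  have hsum := sum_exponents m d₁ d₂ h
  refine ⟨hsum, ?_⟩
  obtain ⟨b, h1, h2⟩ := h
  have hne : ∀ i, ¬ ((b i : Derivation K (MvPolynomial (Fin 2) K) (MvPolynomial (Fin 2) K))
      (X 0) = 0 ∧ (b i : Derivation K (MvPolynomial (Fin 2) K) (MvPolynomial (Fin 2) K))
      (X 1) = 0) := by
    rintro i ⟨ha, hb⟩
    apply b.ne_zero i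
    apply Subtype.ext
    apply MvPolynomial.derivation_ext
    intro j
    fin_cases j
    · simpa using ha
    · simpa using hb
  have key : ∀ (i : Fin 2) (d : ℕ), 2 * d + 2 ≤ m 0 + m 1 + m 2 + m 3 →
      (∀ j, ((b i : Derivation K (MvPolynomial (Fin 2) K) (MvPolynomial (Fin 2) K))
      (X j)).IsHomogeneous d) → False := by
    intro i d hd hh
    exact hne i (low_zero (K := K) (m 0) (m 1) (m 2) (m 3) d hd (hbal 0) (hbal 1) (hbal 2)
      (hbal 3) (hpos 0) (hpos 1) (hpos 2) (hpos 3) hmod _ _ (hh 0) (hh 1)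
      ((mem_iff m _).mp (b i).2))
  have k1 : ¬ (2 * d₁ + 2 ≤ m 0 + m 1 + m 2 + m 3) := fun hd => key 0 d₁ hd h1
  have k2 : ¬ (2 * d₂ + 2 ≤ m 0 + m 1 + m 2 + m 3) := fun hd => key 1 d₂ hd h2
  rw [abs_le]
  constructor <;> omega

end Pool.Agent.Results.MP_84e76d_ag.ModFour
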